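import Pool.Agent.U173.PT.Defs

/-!
# Varieties over finitely generated fields whose supersingular parts are spanned by Tate classes:
definitions
-/

set_option autoImplicit false

open CategoryTheory AlgebraicGeometry

universe u

namespace Pool.Agent.U173.PQ

open Pool.Agent.H914 Pool.Agent.H914.VarClass Pool.Agent.H914.VarClass.Obj
  Pool.Agent.H914.WeilCohomology Pool.Agent.H281R3.HT Pool.Agent.TH125.Gal
  Pool.Agent.U173.SL Pool.Agent.U173.PS Pool.Agent.U173.PT

section Act

variable {K : Type} [Field K] {A : Type} [Ring A] [Algebra K A] {B : Type} [Ring B] [Algebra K B]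
  {C : Type} [Ring C] [Algebra K C] {Γ : Type} [Group Γ]

/-- The span of the Tate classes of all codimensions. -/
def tateSpan (χ : Γ →* Kˣ) (gr : ℕ → Submodule K A) (ρ : Γ →* (A ≃ₐ[K] A)) : Submodule K A :=
  Submodule.span K {c | ∃ n, IsTateAct χ gr ρ n c}

/-- The Tate classes in `C` are linear combinations of products of elements `f a` and `f' b`, where
`a` is a Tate class in `A` and `b` a Tate class in `B`. -/
def ProductAct (χ : Γ →* Kˣ) (f : A →ₐ[K] C) (f' : B →ₐ[K] C) (gr₁ : ℕ → Submodule K A)
    (ρ₁ : Γ →* (A ≃ₐ[K] A)) (gr₂ : ℕ → Submodule K B) (ρ₂ : Γ →* (B ≃ₐ[K] B))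
    (gr : ℕ → Submodule K C) (ρ : Γ →* (C ≃ₐ[K] C)) : Prop :=
  ∀ (n : ℕ) (c : C), IsTateAct χ gr ρ n c →
    c ∈ Submodule.span K {w | ∃ e ≤ n, ∃ a, IsTateAct χ gr₁ ρ₁ e a ∧ ∃ b,
      IsTateAct χ gr₂ ρ₂ (n - e) b ∧ w = f a * f' b}

end Act

variable {k : Type u} [Field k] {𝒱 : VarClass k} {ops : CycleOps 𝒱}
  {W : WeilCohomology.{u, 0} ops} {Γ : Type} [Group Γ]

/-- The cohomology of `A` is the direct sum of the span of the Tate classes and a stable subspace `T`, on
which the Frobenius eigenvalues at the places `v` in `P` are Weil numbers with slope field `L v`, and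
no nonzero subspace of `T` which is stable under a subgroup of finite index is supersingular at all
places in `P`. -/
def IsSeparated (χ : Γ →* W.Kˣ) (P : Set (Place Γ))
    (L : Place Γ → IntermediateField ℚ (AlgebraicClosure ℚ)) (A : GVar W Γ) : Prop :=
  GoodAct P L A.act (tateSpan χ (W.gr A.X) A.act)

/-- There is a zero-cycle of nonzero degree. -/
def HasPoint (W : WeilCohomology.{u, 0} ops) (A : 𝒱.Obj) : Prop :=
  ∃ a ∈ algClasses W A A.dim, W.tr A a ≠ 0

/-- The varieties `X i`, `Y j` and `Z` have Galois actions with the usual formal properties and zero-cycles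
of nonzero degree. Each `X i` is separated for the set `P i` of places, with slope fields `L i v` which
contain totally real fields `E i v`. For all `v` in `P i`, the varieties `X j` with indices behind `i` in
the list `l` and the varieties `Y j`, `j` in the list `l'`, are apart from `L i v` at the place `v`; and
`Z` has at `v` a slope field which contains `E i v` and meets `L i v` in a totally real field. -/
structure IsProductSystem {I I' : Type} (χ : Γ →* W.Kˣ) (P : I → Set (Place Γ))
    (E L : I → Place Γ → IntermediateField ℚ (AlgebraicClosure ℚ)) (X : I → GVar W Γ)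
    (Y : I' → GVar W Γ) (Z : GVar W Γ) (l : List I) (l' : List I') : Prop where
  galois : ∀ i, IsGaloisVar χ (X i)
  point : ∀ i, HasPoint W (X i).X
  point_others : ∀ j, HasPoint W (Y j).X
  point_base : HasPoint W Z.X
  datum : ∀ i, IsDatum χ (P i) (E i) (L i)
  separated : ∀ i, IsSeparated χ (P i) (L i) (X i)
  pairs : l.Pairwise fun i j => ∀ v ∈ P i, IsApart v (E i v) (L i v) (X j)
  others : ∀ i, ∀ j ∈ l', ∀ v ∈ P i, IsApart v (E i v) (L i v) (Y j)
  base : ∀ i, ∀ v ∈ P i, MeetsInReal v (E i v) (L i v) Z

/-- For all actions on the cohomology of the product of `A` and `B` which are compatible with the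
projections, the Tate classes on the product are linear combinations of products of Tate classes on
`A` with Tate classes on `B`. -/
def AreProducts (χ : Γ →* W.Kˣ) (A B : GVar W Γ) : Prop :=
  ∀ υ : Γ →* (W.H (A.X.prod B.X) ≃ₐ[W.K] W.H (A.X.prod B.X)),
    Intertwines (W.map (fst A.X B.X)) A.act υ → Intertwines (W.map (snd A.X B.X)) B.act υ →
    ProductAct χ (W.map (fst A.X B.X)) (W.map (snd A.X B.X)) (W.gr A.X) A.act (W.gr B.X) B.act
      (W.gr (A.X.prod B.X)) υ

end Pool.Agent.U173.PQ
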