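import Pool.Agent.U173.PT.Fin
import Pool.Agent.U173.PQ.Defs

/-!
# The Tate conjecture for products of arbitrary varieties
-/

set_option autoImplicit false
set_option linter.unusedSectionVars false

open CategoryTheory AlgebraicGeometry
open scoped TensorProduct

universe u

namespace Pool.Agent.U173.PQ

open Pool.Agent.H914 Pool.Agent.H914.VarClass Pool.Agent.H914.VarClass.Obj
  Pool.Agent.H914.WeilCohomology Pool.Agent.H281R3.HT Pool.Agent.TH125.Gal
  Pool.Agent.U173.SL Pool.Agent.U173.PS Pool.Agent.N179.TL Pool.Agent.W552 Pool.Agent.U173.PT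

variable {k : Type u} [Field k] {𝒱 : VarClass k} {ops : CycleOps 𝒱}
  {W : WeilCohomology.{u, 0} ops} {Γ : Type} [Group Γ] {χ : Γ →* W.Kˣ}

section

variable {X Y : GVar W Γ} {υ : Γ →* (W.H (X.X.prod Y.X) ≃ₐ[W.K] W.H (X.X.prod Y.X))}

/-- the image of the combinations of products -/
theorem kEquiv_range' {S : Submodule W.K (W.H X.X)} (u : S ⊗[W.K] W.H Y.X) :
    kEquiv W X.X Y.X ((S.subtype.rTensor (W.H Y.X)) u) ∈
      Submodule.span W.K {w | ∃ a ∈ S, ∃ y : W.H Y.X,
        w = W.map (fst X.X Y.X) a * W.map (snd X.X Y.X) y} := by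
  induction u using TensorProduct.induction_on with
  | zero => rw [map_zero, map_zero]; exact Submodule.zero_mem _
  | tmul a b =>
    rw [LinearMap.rTensor_tmul, kEquiv_tmul]
    exact Submodule.subset_span ⟨a, a.2, b, rfl⟩
  | add x y hx hy => rw [map_add, map_add]; exact Submodule.add_mem _ hx hy

/-- **The splitting, general version.** -/
theorem split_of_good' [IsAlgClosed W.K] {P : Set (Place Γ)}
    (hP : ∀ v ∈ P, ((χ v.σ : W.Kˣ) : W.K) = (v.p : W.K) ^ v.m)
    {S T : Submodule W.K (W.H X.X)} (hS : ∀ g, ∀ x ∈ S, X.act g x ∈ S)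
    (hT : StableAct X.act ⊤ T) (hc : IsCompl T S)
    (hss : ∀ Δ : Subgroup Γ, Δ.FiniteIndex → ∀ U ≤ T, StableAct X.act Δ U →
      (∀ v ∈ P, SupersingularAct v X.act U) → U = ⊥)
    (hres : ∀ v ∈ P, ∀ (α : W.K), ∀ t ∈ T, IsEigen X.act v.σ α t →
      (∀ (N : ℕ) (b : ℤ), 0 < N → α ^ N ≠ (v.p : W.K) ^ b) →
      ∀ (β : W.K) (b : W.H Y.X), IsEigen Y.act v.σ β b →
      ∀ (n : ℕ) (i : ℤ), 0 < n → (α * β) ^ n ≠ (v.p : W.K) ^ i)
    (h1 : Intertwines (W.map (fst X.X Y.X)) X.act υ)
    (h2 : Intertwines (W.map (snd X.X Y.X)) Y.act υ)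
    {c : W.H (X.X.prod Y.X)} {j : ℕ} {Δ : Subgroup Γ} (hΔ : Δ.FiniteIndex)
    (hcΔ : ∀ g ∈ Δ, υ g c = (χ g : W.K) ^ j • c) :
    c ∈ Submodule.span W.K {w | ∃ a ∈ S, ∃ y : W.H Y.X,
      w = W.map (fst X.X Y.X) a * W.map (snd X.X Y.X) y} := by
  set u := (kEquiv W X.X Y.X).symm c with hu
  have hcu : c = kEquiv W X.X Y.X u := by rw [hu, LinearEquiv.apply_symm_apply]
  have h3 : ∀ g : Δ, TensorProduct.map (X.act (g : Γ)).toLinearMap (Y.act (g : Γ)).toLinearMap u =
      (χ (g : Γ) : W.K) ^ j • u := by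
    intro g
    apply (kEquiv W X.X Y.X).injective
    rw [← kEquiv_act h1 h2, map_smul, ← hcu]
    exact hcΔ g g.2
  obtain ⟨u', hu'⟩ := Pool.Agent.U173.GS.semi hc.symm (G := Δ)
    (fun g => (X.act (g : Γ)).toLinearMap) (fun g => (Y.act (g : Γ)).toLinearMap)
    (fun g => (χ (g : Γ) : W.K) ^ j) (fun g => (X.act (g : Γ)).injective)
    (fun g => (Y.act (g : Γ)).injective)
    (fun g => hS (g : Γ)) (fun g => hT g trivial) h3 (by
      intro U hUT hU0 hUs
      by_contra hno
      apply hU0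
      refine hss Δ hΔ U hUT (fun g hg t ht => hUs ⟨g, hg⟩ t ht) ?_
      intro v hv n α hn t ht hα
      by_contra hno'
      push Not at hno'
      apply hno
      obtain ⟨d, hd, -, hdΔ⟩ := Subgroup.exists_pow_mem_of_index_ne_zero hΔ.index_ne_zero v.σ
      have hg : v.σ ^ (n * d) ∈ Δ := by
        rw [mul_comm, pow_mul]
        exact Subgroup.pow_mem _ hdΔ _
      refine ⟨⟨v.σ ^ (n * d), hg⟩, α ^ d, t, ht, hα.1, ?_, fun β hβ heq => ?_⟩
      · change X.act (v.σ ^ (n * d)) t = α ^ d • t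
        rw [pow_mul]
        exact eigen_pow hα.2 d
      · obtain ⟨a, ha, s, hs, has⟩ := exists_root hT hn (hUT ht) hα
        obtain ⟨y, hy, hy0⟩ := hβ.exists_hasEigenvector
        obtain ⟨b, hb, z, -, hbz⟩ := exists_root (A := Y) (T := ⊤) (fun _ _ _ _ => trivial)
          (Nat.mul_pos hn hd) (t := y) trivial ⟨hy0, Module.End.mem_eigenspace_iff.1 hy⟩
        refine hres v hv a s hs has (fun N b' hN heq' => hno' N (b' * n) hN ?_) b z hbz (n * d)
          ((v.m * (n * d) * j : ℕ) : ℤ) (Nat.mul_pos hn hd) ?_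
        · rw [← ha, ← pow_mul, mul_comm n N, pow_mul, heq', zpow_mul, zpow_natCast]
        · rw [mul_pow, pow_mul a, ha, hb, heq]
          change (χ (v.σ ^ (n * d)) : W.K) ^ j = _
          rw [map_pow, Units.val_pow_eq_pow_val, hP v hv, zpow_natCast, ← pow_mul, ← pow_mul]
          congr 1
          ring)
  rw [hcu, ← hu']
  exact kEquiv_range' u'

end

/-- the conjugates of Tate classes are Tate classes -/
theorem tate_conj {A : GVar W Γ} (hA : IsGaloisVar χ A) (g : Γ) {n : ℕ} {c : W.H A.X}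
    (hc : IsTateAct χ (W.gr A.X) A.act n c) : IsTateAct χ (W.gr A.X) A.act n (A.act g c) := by
  obtain ⟨h1, Δ, hΔ, h2⟩ := hc
  refine ⟨hA.gr_mem g _ _ h1, Δ.map (MulAut.conj g).toMonoidHom, ?_, ?_⟩
  · refine ⟨?_⟩
    rw [Subgroup.index_map_of_bijective]
    · exact hΔ.index_ne_zero
    · exact (MulAut.conj g).bijective
  · rintro _ ⟨h, hh, rfl⟩
    change A.act (g * h * g⁻¹) (A.act g c) = (χ (g * h * g⁻¹) : W.K) ^ n • A.act g c
    have e1 : A.act (g * h * g⁻¹) (A.act g c) = A.act g (A.act h c) := by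
      rw [← AlgEquiv.mul_apply, ← map_mul, inv_mul_cancel_right, map_mul]
      rfl
    have e2 : χ (g * h * g⁻¹) = χ h := by
      rw [map_mul, map_mul, map_inv, mul_comm (χ g), mul_assoc, mul_inv_cancel, mul_one]
    rw [e1, e2, h2 h hh, map_smul]

theorem tateSpan_stable {A : GVar W Γ} (hA : IsGaloisVar χ A) (g : Γ) :
    ∀ x ∈ tateSpan χ (W.gr A.X) A.act, A.act g x ∈ tateSpan χ (W.gr A.X) A.act := by
  intro x hx
  unfold tateSpan at hx ⊢
  induction hx using Submodule.span_induction with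
  | mem x hx =>
    obtain ⟨n, hn⟩ := hx
    exact Submodule.subset_span ⟨n, tate_conj hA g hn⟩
  | zero => rw [map_zero]; exact Submodule.zero_mem _
  | add x y _ _ hx hy => rw [map_add]; exact Submodule.add_mem _ hx hy
  | smul r x _ hx => rw [map_smul]; exact Submodule.smul_mem _ _ hx

/-- a basis of the span of the Tate classes which consists of Tate classes, and a complement -/
theorem exists_tate_basis (χ : Γ →* W.Kˣ) (A : GVar W Γ) :
    ∃ (κ : Type) (_ : Fintype κ) (ε : Type) (e : Module.Basis (κ ⊕ ε) W.K (W.H A.X)) (d : κ → ℕ),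
      (∀ i, IsTateAct χ (W.gr A.X) A.act (d i) (e (Sum.inl i))) ∧
      tateSpan χ (W.gr A.X) A.act = Submodule.span W.K (Set.range fun i => e (Sum.inl i)) := by
  classical
  obtain ⟨b, hb, hspan, hli⟩ := exists_linearIndependent W.K
    {c | ∃ n, IsTateAct χ (W.gr A.X) A.act n c}
  have hfin : Finite b := hli.finite
  have := Fintype.ofFinite b
  choose d hd using fun i : b => hb i.2
  have h1 : ∀ i : b, Module.Basis.sumExtend hli (Sum.inl i) = (i : W.H A.X) := fun i => by
    simp only [Module.Basis.sumExtend, Module.Basis.reindex_apply, Module.Basis.extend_apply_self]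
    rfl
  refine ⟨b, inferInstance, _, Module.Basis.sumExtend hli, d, fun i => ?_, ?_⟩
  · rw [h1]
    exact hd i
  · have h2 : (fun i : b => Module.Basis.sumExtend hli (Sum.inl i)) = Subtype.val := by
      funext i
      exact h1 i
    rw [h2, Subtype.range_coe]
    exact hspan.symm

section

variable {X Y : GVar W Γ} {υ : Γ →* (W.H (X.X.prod Y.X) ≃ₐ[W.K] W.H (X.X.prod Y.X))}

/-- expansion of the elements of the span -/
theorem expand_span {κ ε : Type} [Fintype κ] (e : Module.Basis (κ ⊕ ε) W.K (W.H X.X))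
    {c : W.H (X.X.prod Y.X)}
    (hc : c ∈ Submodule.span W.K {w | ∃ a ∈ Submodule.span W.K (Set.range fun i => e (Sum.inl i)),
      ∃ y : W.H Y.X, w = W.map (fst X.X Y.X) a * W.map (snd X.X Y.X) y}) :
    c = ∑ i : κ, W.map (fst X.X Y.X) (e (Sum.inl i)) *
      W.map (snd X.X Y.X) (ctr (e.coord (Sum.inl i)) c) := by
  classical
  induction hc using Submodule.span_induction with
  | mem w hw =>
    obtain ⟨a, ha, y, rfl⟩ := hw
    induction ha using Submodule.span_induction with
    | mem a ha =>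
      obtain ⟨i, rfl⟩ := ha
      rw [Finset.sum_eq_single i]
      · rw [ctr_apply, Module.Basis.coord_apply, Module.Basis.repr_self, Finsupp.single_eq_same,
          one_smul]
      · intro j _ hj
        rw [ctr_apply, Module.Basis.coord_apply, Module.Basis.repr_self,
          Finsupp.single_eq_of_ne (by simpa using hj), zero_smul, map_zero, mul_zero]
      · intro h
        exact absurd (Finset.mem_univ _) h
    | zero => simp
    | add a b _ _ ha hb =>
      simp only [map_add, add_mul, mul_add, Finset.sum_add_distrib]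
      rw [← ha, ← hb]
    | smul r a _ ha =>
      simp only [map_smul, smul_mul_assoc, mul_smul_comm, ← Finset.smul_sum]
      rw [← ha]
  | zero => simp
  | add x y _ _ hx hy =>
    simp only [map_add, mul_add, Finset.sum_add_distrib]
    rw [← hx, ← hy]
  | smul r x _ hx =>
    simp only [map_smul, mul_smul_comm, ← Finset.smul_sum]
    rw [← hx]

/-- **The coefficients of the Tate classes are Tate classes.** -/
theorem products_of_split
    (h1 : Intertwines (W.map (fst X.X Y.X)) X.act υ)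
    (h2 : Intertwines (W.map (snd X.X Y.X)) Y.act υ)
    (hsplit : ∀ (c : W.H (X.X.prod Y.X)) (j : ℕ) (Δ : Subgroup Γ), Δ.FiniteIndex →
      (∀ g ∈ Δ, υ g c = (χ g : W.K) ^ j • c) →
      c ∈ Submodule.span W.K {w | ∃ a ∈ tateSpan χ (W.gr X.X) X.act, ∃ y : W.H Y.X,
        w = W.map (fst X.X Y.X) a * W.map (snd X.X Y.X) y})
    {n : ℕ} {c : W.H (X.X.prod Y.X)} (hct : IsTateAct χ (W.gr (X.X.prod Y.X)) υ n c) :
    c ∈ Submodule.span W.K {w | ∃ e ≤ n, ∃ a, IsTateAct χ (W.gr X.X) X.act e a ∧ ∃ b,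
      IsTateAct χ (W.gr Y.X) Y.act (n - e) b ∧
        w = W.map (fst X.X Y.X) a * W.map (snd X.X Y.X) b} := by
  classical
  obtain ⟨hcj, Δ, hΔ, hc⟩ := hct
  obtain ⟨κ, _, ε, e, d, hd, hS⟩ := exists_tate_basis χ X
  have h0 := hsplit c n Δ hΔ hc
  rw [hS] at h0
  have hexp := expand_span e h0
  choose hdg Δ' hΔ' hfix using hd
  have hΔ'' : (⨅ i, Δ' i).FiniteIndex := Subgroup.finiteIndex_iInf hΔ'
  -- uniqueness
  have huni : ∀ (x : κ → W.H Y.X) (l : κ),
      ctr (e.coord (Sum.inl l)) (∑ l', W.map (fst X.X Y.X) (e (Sum.inl l')) *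
        W.map (snd X.X Y.X) (x l')) = x l := by
    intro x l
    rw [map_sum, Finset.sum_eq_single l]
    · rw [ctr_apply, Module.Basis.coord_apply, Module.Basis.repr_self, Finsupp.single_eq_same,
        one_smul]
    · intro l' _ hl
      rw [ctr_apply, Module.Basis.coord_apply, Module.Basis.repr_self,
        Finsupp.single_eq_of_ne (by simpa using hl.symm), zero_smul]
    · intro h
      exact absurd (Finset.mem_univ _) h
  set x : κ → W.H Y.X := fun l => ctr (e.coord (Sum.inl l)) c with hx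
  have hdeg : ∀ l, x l = if 2 * d l ≤ 2 * n then
      H914.proj (W.isInternal Y.X) (2 * n - 2 * d l) (x l) else 0 := by
    intro l
    have h3 : c = ∑ l', W.map (fst X.X Y.X) (e (Sum.inl l')) * W.map (snd X.X Y.X)
        (if 2 * d l' ≤ 2 * n then
          H914.proj (W.isInternal Y.X) (2 * n - 2 * d l') (x l') else 0) := by
      conv_lhs => rw [← H914.proj_same (W.isInternal _) hcj, hexp]
      rw [map_sum]
      refine Finset.sum_congr rfl fun l' _ => ?_
      rw [TH125.Gal.proj_ext (hdg l')]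
      by_cases h : 2 * d l' ≤ 2 * n
      · rw [if_pos h, if_pos h]
      · rw [if_neg h, if_neg h, map_zero, mul_zero]
    conv_lhs => rw [hx]
    beta_reduce
    rw [h3]
    exact huni _ l
  -- semi-invariance
  have hact : ∀ g ∈ Δ ⊓ ⨅ i, Δ' i, ∀ l,
      (χ g : W.K) ^ d l • Y.act g (x l) = (χ g : W.K) ^ n • x l := by
    intro g hg l
    have h3 : υ g c = ∑ l', W.map (fst X.X Y.X) (e (Sum.inl l')) * W.map (snd X.X Y.X)
        ((χ g : W.K) ^ d l' • Y.act g (x l')) := by
      conv_lhs => rw [hexp]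
      rw [map_sum]
      refine Finset.sum_congr rfl fun l' _ => ?_
      rw [map_mul, h1 g, hfix l' g ((Subgroup.mem_iInf.1 hg.2) l'), h2 g, map_smul, map_smul,
        smul_mul_assoc, mul_smul_comm]
    have h4 := huni (fun l' => (χ g : W.K) ^ d l' • Y.act g (x l')) l
    rw [← h3] at h4
    have h5 : υ g c = (χ g : W.K) ^ n • c := hc g hg.1
    rw [h5, map_smul] at h4
    exact h4.symm
  rw [hexp]
  refine Submodule.sum_mem _ fun l _ => ?_
  by_cases h : 2 * d l ≤ 2 * n
  · have h3 := hdeg l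
    rw [if_pos h] at h3
    refine Submodule.subset_span ⟨d l, by omega, _, ⟨hdg l, Δ' l, hΔ' l, hfix l⟩, x l,
      ⟨?_, Δ ⊓ ⨅ i, Δ' i, inferInstance, fun g hg => ?_⟩, rfl⟩
    · rw [h3, show 2 * (n - d l) = 2 * n - 2 * d l by omega]
      exact H914.proj_mem _ _ _
    · have h6 := hact g hg l
      have h7 : (χ g : W.K) ^ n = (χ g : W.K) ^ d l * (χ g : W.K) ^ (n - d l) := by
        rw [← pow_add]
        congr 1
        omega
      rw [h7, mul_smul] at h6
      exact smul_right_injective _ (pow_ne_zero _ (Units.ne_zero (χ g))) h6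
  · have h3 := hdeg l
    rw [if_neg h] at h3
    change W.map (fst X.X Y.X) (e (Sum.inl l)) * W.map (snd X.X Y.X) (x l) ∈ _
    rw [h3, map_zero, mul_zero]
    exact Submodule.zero_mem _

/-- **The Tate conjecture for the product and for the factors.** -/
theorem tate_iff (hX : HasPoint W X.X) (hY : HasPoint W Y.X)
    (h1 : Intertwines (W.map (fst X.X Y.X)) X.act υ)
    (h2 : Intertwines (W.map (snd X.X Y.X)) Y.act υ)
    (hprod : ProductAct χ (W.map (fst X.X Y.X)) (W.map (snd X.X Y.X)) (W.gr X.X) X.act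
      (W.gr Y.X) Y.act (W.gr (X.X.prod Y.X)) υ) :
    TateConjecture χ (⟨X.X.prod Y.X, υ⟩ : GVar W Γ) ↔ TateConjecture χ X ∧ TateConjecture χ Y := by
  constructor
  · intro hT
    obtain ⟨a, ha, ha0⟩ := hX
    obtain ⟨b, hb, hb0⟩ := hY
    constructor
    · intro j c hcj ⟨Δ, hΔ, hc⟩
      have h3 := hT j (W.map (fst X.X Y.X) c) (W.map_mem _ hcj) ⟨Δ, hΔ, fun g hg => by
        change υ g _ = _
        rw [h1 g, hc g hg, map_smul]⟩
      have h4 : W.push (fst X.X Y.X) (W.map (fst X.X Y.X) c * W.map (snd X.X Y.X) b) ∈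
          algSpan W X.X :=
        algSpan_push _ (algSpan_mul (Submodule.span_mono (Set.subset_iUnion _ j) h3)
          (algSpan_map _ (alg_mem hb)))
      rw [push_fst c (alg_gr hb)] at h4
      have h5 := Submodule.smul_mem _ (W.tr Y.X b)⁻¹ h4
      rw [smul_smul, inv_mul_cancel₀ hb0, one_smul] at h5
      exact algSpan_gr h5 hcj
    · intro j c hcj ⟨Δ, hΔ, hc⟩
      have h3 := hT j (W.map (snd X.X Y.X) c) (W.map_mem _ hcj) ⟨Δ, hΔ, fun g hg => by
        change υ g _ = _
        rw [h2 g, hc g hg, map_smul]⟩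
      have h4 : W.push (snd X.X Y.X) (W.map (fst X.X Y.X) a * W.map (snd X.X Y.X) c) ∈
          algSpan W Y.X :=
        algSpan_push _ (algSpan_mul (algSpan_map _ (alg_mem ha))
          (Submodule.span_mono (Set.subset_iUnion _ j) h3))
      rw [W.push_snd] at h4
      have h5 := Submodule.smul_mem _ (W.tr X.X a)⁻¹ h4
      rw [smul_smul, inv_mul_cancel₀ ha0, one_smul] at h5
      exact algSpan_gr h5 hcj
  · rintro ⟨hTX, hTY⟩ n c hcn hc
    refine algSpan_gr ?_ hcn
    refine Submodule.span_le.2 ?_ (hprod n c ⟨hcn, hc⟩)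
    rintro _ ⟨e, -, a, ⟨ha, ha'⟩, b, ⟨hb, hb'⟩, rfl⟩
    exact algSpan_mul (algSpan_map _ (Submodule.span_mono (Set.subset_iUnion _ e) (hTX e a ha ha')))
      (algSpan_map _ (Submodule.span_mono (Set.subset_iUnion _ (n - e)) (hTY (n - e) b hb hb')))

end

/-- zero-cycles on products -/
theorem HasPoint.prod {A B : 𝒱.Obj} (hA : HasPoint W A) (hB : HasPoint W B) :
    HasPoint W (A.prod B) := by
  obtain ⟨_, ⟨z, hz, rfl⟩, ha0⟩ := hA
  obtain ⟨_, ⟨w, hw, rfl⟩, hb0⟩ := hB
  refine ⟨W.cl (A.prod B) (ops.mul (ops.pull (fst A B) z) (ops.pull (snd A B) w)), ⟨_, ?_, rfl⟩, ?_⟩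
  · have h1 := ops.mul_mem (ops.pull_mem (fst A B) hz) (ops.pull_mem (snd A B) hw)
    rwa [← dim_prod] at h1
  · rw [W.cl_mul, W.cl_pull, W.cl_pull, W.tr_prod]
    exact mul_ne_zero ha0 hb0

variable {I I' : Type} {X : I → GVar W Γ} {Y : I' → GVar W Γ} {Z : GVar W Γ}
  {P : I → Set (Place Γ)} {E L : I → Place Γ → IntermediateField ℚ (AlgebraicClosure ℚ)}
  {l' : List I'}

theorem hasPoint_product {l : List I} {V : GVar W Γ} (h : IsProductOf X Z l V)
    (hX : ∀ i, HasPoint W (X i).X) (hZ : HasPoint W Z.X) : HasPoint W V.X := by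
  induction h with
  | nil => exact hZ
  | @cons i l B V hB hV ih =>
    obtain ⟨υ, h1, h2⟩ := hV
    exact (hX i).prod ih

theorem IsProductSystem.tail {i : I} {l : List I} (h : IsProductSystem χ P E L X Y Z (i :: l) l') :
    IsProductSystem χ P E L X Y Z l l' :=
  ⟨h.galois, h.point, h.point_others, h.point_base, h.datum, h.separated,
    (List.pairwise_cons.1 h.pairs).2, h.others, h.base⟩

/-- **The Tate classes in a system.** -/
theorem IsProductSystem.areProducts [IsAlgClosed W.K] {i : I} {l : List I}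
    (h : IsProductSystem χ P E L X Y Z (i :: l) l') {B' B : GVar W Γ} (hB' : IsProductOf Y Z l' B')
    (hB : IsProductOf X B' l B) : AreProducts χ (X i) B := by
  intro υ h1 h2 n c hc
  refine products_of_split h1 h2 (fun c j Δ hΔ hcΔ => ?_) hc
  obtain ⟨T, hT, hcT, hTS, hss⟩ := h.separated i
  refine split_of_good' (h.datum i).character (fun g => tateSpan_stable (h.galois i) g) hT hcT hss
    ?_ h1 h2 hΔ hcΔ
  intro v hv α t ht hα hno γ b hb n e hn heq
  obtain ⟨M, hEM, hLM, hM⟩ := h.base i v hv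
  have hslope := (hTS v hv).2 α t ht hα
  have hweil := (hTS v hv).1 α t ht hα
  have hpairs := (List.pairwise_cons.1 h.pairs).1
  obtain ⟨y, β', hne, hy, ⟨b', hb'⟩, rfl⟩ := eig_list hB (fun j hj => hpairs j hj v hv) hb
  obtain ⟨y', β, hne', hy', ⟨b'', hb''⟩, rfl⟩ :=
    eig_list hB' (fun j hj => h.others i j hj v hv) hb'
  refine no_relation_star_pow (ι := v.ι) ((h.datum i).real v hv) ((h.datum i).le v hv) hEM hLM
    (m := v.m) ⟨hslope, hweil, fun N b hN => hno N b hN⟩ (Y := y ++ y') ?_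
    (fun a ha => ?_) (hM β b'' trivial hb'') hn n e ?_
  · intro hne2
    by_cases hy0 : y = []
    · refine hne' fun h0 => hne2 ?_
      rw [hy0, h0]
      rfl
    · exact hne hy0
  · rcases List.mem_append.1 ha with ha | ha
    · exact hy a ha
    · exact hy' a ha
  · rw [List.prod_append, ← heq, ← mul_pow]
    congr 1
    ring

/-- **The Tate conjecture for products of arbitrary varieties.** -/
theorem IsProductSystem.tate [IsAlgClosed W.K] {l : List I}
    (h : IsProductSystem χ P E L X Y Z l l') {B' V : GVar W Γ} (hB' : IsProductOf Y Z l' B')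
    (hV : IsProductOf X B' l V) :
    TateConjecture χ V ↔ (∀ i ∈ l, TateConjecture χ (X i)) ∧ TateConjecture χ B' := by
  induction hV with
  | nil => simp
  | @cons i l B V hB hV ih =>
    obtain ⟨υ, h1, h2⟩ := hV
    rw [tate_iff (h.point i) (hasPoint_product hB h.point (hasPoint_product hB' h.point_others
      h.point_base)) h1 h2 (h.areProducts hB' hB υ h1 h2), ih h.tail, List.forall_mem_cons,
      and_assoc]

end Pool.Agent.U173.PQ
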